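import Mathlib
import Pool.Agent.Lib.helper27.MonicPIRing

set_option autoImplicit false

namespace Pool.Agent.Results.MP_f7573e_al.NoMonicIdentity

open Pool.Agent.Lib.helper27.MonicPI

/-- Elements of the free associative ring without unit: integer combinations of nonempty words. -/
abbrev NcPoly : Type := FreeSemigroup ℕ →₀ ℤ

/-- The value of a polynomial at a substitution of ring elements for the variables. -/
noncomputable def evalPoly {R : Type} [NonUnitalRing R] (f : NcPoly) (r : ℕ → R) : R :=
  f.sum fun w c => c • FreeSemigroup.lift r w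

/-- `f` has total degree `d`. -/
def HasDegree (f : NcPoly) (d : ℕ) : Prop :=
  (∀ w ∈ f.support, w.length ≤ d) ∧ ∃ w ∈ f.support, w.length = d

/-- The multilinear polynomial of degree five with coefficients `α` is an identity of `R`. -/
def MultilinearIdentity5 (R : Type) [NonUnitalRing R] (α : Equiv.Perm (Fin 5) → ℤ) : Prop :=
  ∀ r : Fin 5 → R,
    ∑ σ : Equiv.Perm (Fin 5), α σ • (r (σ 0) * r (σ 1) * r (σ 2) * r (σ 3) * r (σ 4)) = 0

/-- A nonempty list as a word. -/
def toWord (w : List ℕ) : FreeSemigroup ℕ := ⟨w.headD 0, w.tail⟩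

/-- The sum of a list of words. -/
noncomputable def poly (W : List (List ℕ)) : NcPoly :=
  (W.map fun w => Finsupp.single (toWord w) (1 : ℤ)).sum

theorem coe_lift (r : ℕ → Rr) (c : ℕ) (l : List ℕ) :
    ((FreeSemigroup.lift r ⟨c, l⟩ : Rr) : B) = ev (fun j => (r j : B)) (c :: l) := by
  have : ∀ x : Rr, ((l.foldl (fun a b => a * r b) x : Rr) : B) =
      x * ev (fun j => (r j : B)) l := by
    induction l with
    | nil => intro x; simp [ev]
    | cons d l ih => intro x; rw [List.foldl_cons, ih, ev_cons, ← mul_assoc]; rfl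
  rw [ev_cons]
  exact this (r c)

theorem evalPoly_eq {R : Type} [NonUnitalRing R] (f : NcPoly) (r : ℕ → R) :
    evalPoly f r = Finsupp.linearCombination ℤ (fun w => FreeSemigroup.lift r w) f := rfl

theorem coe_eval (r : ℕ → Rr) (W : List (List ℕ)) (hW : ∀ w ∈ W, w ≠ []) :
    ((evalPoly (poly W) r : Rr) : B) = E (fun j => (r j : B)) W := by
  induction W with
  | nil => rfl
  | cons w W ih =>
    have h1 := ih fun w hw => hW w (List.mem_cons_of_mem _ hw)
    obtain ⟨c, l, rfl⟩ := List.exists_cons_of_ne_nil (hW w (by simp))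
    rw [evalPoly_eq] at h1 ⊢
    rw [poly, List.map_cons, List.sum_cons, map_add, Finsupp.linearCombination_single, one_smul,
      E_cons, ← h1, ← coe_lift]
    rfl

theorem poly_apply (W : List (List ℕ)) (hW : ∀ w ∈ W, w ≠ []) (c : ℕ) (l : List ℕ) :
    poly W ⟨c, l⟩ = (W.count (c :: l) : ℕ) := by
  classical
  induction W with
  | nil => rfl
  | cons w W ih =>
    have h1 := ih fun w hw => hW w (List.mem_cons_of_mem _ hw)
    obtain ⟨d, k, rfl⟩ := List.exists_cons_of_ne_nil (hW w (by simp))
    rw [poly, List.map_cons, List.sum_cons, Finsupp.add_apply, ← poly, h1, List.count_cons,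
      Finsupp.single_apply]
    by_cases e : d = c ∧ k = l
    · obtain ⟨rfl, rfl⟩ := e
      simp [toWord, add_comm]
    · have e1 : toWord (d :: k) ≠ ⟨c, l⟩ := by
        intro h
        exact e (by simpa [toWord] using h)
      have e2 : ((d :: k) == c :: l) = false := by simpa using e
      rw [if_neg e1, e2]
      simp

/-- The list of words of the identity. -/
def fl : List (List ℕ) := Se ++ (So ++ (So ++ (So ++ (Gw ++ Gw))))

theorem fl_ne : ∀ w ∈ fl, w ≠ [] := by decide +kernel

theorem fl_len : ∀ w ∈ fl, w.length ≤ 5 := by decide +kernel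

theorem cnt1 : fl.count [0, 1, 2, 3] = 1 := by decide +kernel

theorem cnt2 : fl.count [0, 0, 1, 2, 3] = 2 := by decide +kernel

/-- A ring with an identity of degree five with coprime coefficients none of whose multilinear
identities of degree five has a coefficient equal to one. -/
theorem result : ∃ (R : Type) (_ : NonUnitalRing R) (f : NcPoly),
    f ≠ 0 ∧ (∀ r : ℕ → R, evalPoly f r = 0) ∧ HasDegree f 5 ∧ f.support.gcd f = 1 ∧
    ∀ α : Equiv.Perm (Fin 5) → ℤ, MultilinearIdentity5 R α → ∀ σ, α σ ≠ 1 := by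
  have c1 : poly fl ⟨0, [1, 2, 3]⟩ = 1 := by rw [poly_apply fl fl_ne, cnt1]; rfl
  have c2 : poly fl ⟨0, [0, 1, 2, 3]⟩ = 2 := by rw [poly_apply fl fl_ne, cnt2]; rfl
  refine ⟨Rr, inferInstance, poly fl, ?_, ?_, ⟨?_, ?_⟩, ?_, ?_⟩
  · intro h
    rw [h] at c1
    simp at c1
  · intro r
    apply Subtype.ext
    rw [coe_eval r fl fl_ne]
    have := main_identity (fun j => (r j : B)) fun j => (r j).2
    rw [fl, E_append, E_append, E_append, E_append, E_append]
    refine Eq.trans ?_ this
    abel
  · rintro ⟨c, l⟩ hw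
    rw [Finsupp.mem_support_iff, poly_apply fl fl_ne] at hw
    have h1 : c :: l ∈ fl := by
      by_contra h
      rw [List.count_eq_zero.mpr h] at hw
      exact hw rfl
    exact fl_len _ h1
  · exact ⟨⟨0, [0, 1, 2, 3]⟩, by rw [Finsupp.mem_support_iff, c2]; decide, rfl⟩
  · have h1 : (poly fl).support.gcd (poly fl) ∣ poly fl ⟨0, [1, 2, 3]⟩ :=
      Finset.gcd_dvd (by rw [Finsupp.mem_support_iff, c1]; decide)
    rw [c1] at h1
    rw [← Finset.normalize_gcd]
    exact normalize_eq_one.mpr (isUnit_of_dvd_one h1)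
  · intro α hα τ hτ
    have h1 := congrArg Subtype.val (hα fun j => ⟨π (wd [(τ⁻¹ j).val]),
      AddSubmonoid.subset_closure ⟨_, by simp, rfl⟩⟩)
    have h2 : π (∑ σ : Equiv.Perm (Fin 5), α σ • wd [(τ⁻¹ (σ 0)).val, (τ⁻¹ (σ 1)).val,
        (τ⁻¹ (σ 2)).val, (τ⁻¹ (σ 3)).val, (τ⁻¹ (σ 4)).val]) = 0 := by
      refine Eq.trans ?_ h1
      rw [map_sum, AddSubmonoidClass.coe_finsetSum]
      refine Finset.sum_congr rfl fun σ _ => ?_
      rw [map_zsmul]
      show _ = α σ • (π _ * π _ * π _ * π _ * π _)
      rw [← map_mul, ← map_mul, ← map_mul, ← map_mul]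
      rfl
    have h3 := (π_eq_zero _).mp h2 1 1
    rw [one_mul, mul_one, map_sum, Finset.sum_eq_single τ] at h3
    · rw [map_zsmul, Lam_wd, hτ, lam5 _ (by simp) rfl] at h3
      simp at h3
      revert h3
      decide
    · intro σ _ hσ
      rw [map_zsmul, Lam_wd, lam5 _ (by simp) rfl, if_neg]
      · simp
      · intro e
        apply hσ
        simp only [List.cons.injEq, and_true] at e
        obtain ⟨e0, e1, e2, e3, e4⟩ := e
        ext j
        have : ∀ k : Fin 5, (τ⁻¹ (σ k)).val = k.val := by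
          intro k
          fin_cases k
          exacts [e0, e1, e2, e3, e4]
        have h4 : τ⁻¹ (σ j) = j := Fin.ext (this j)
        have h5 := congrArg τ h4
        simpa using congrArg Fin.val h5
    · simp

end Pool.Agent.Results.MP_f7573e_al.NoMonicIdentity
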